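import Pool.Agent.H87.AQ.Targets

/-!
# N3: the basic operation (MP_657073_al, residue dichotomy)
-/

namespace AMq

namespace N3

/-- a positive number with given residues modulo coprime moduli -/
lemma crt {m n : ℕ} (h : m.Coprime n) (hm : 0 < m) (hn : 0 < n) (a b : ℕ) :
    ∃ k, 0 < k ∧ k ≡ a [MOD m] ∧ k ≡ b [MOD n] := by
  obtain ⟨k, h1, h2⟩ := Nat.chineseRemainder h a b
  refine ⟨k + m * n, by positivity, ?_, ?_⟩
  · have : k + m * n ≡ k [MOD m] := by simp [Nat.ModEq]
    exact this.trans h1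
  · have : k + m * n ≡ k [MOD n] := by simp [Nat.ModEq]
    exact this.trans h2

/-- scaling a virtual pair by a number `≡ 1` -/
lemma scale {ℓ : ℕ} {V : ℕ → ℕ → Prop} (hV : VC ℓ V) {M a b m : ℕ} (h : Vp V M a b)
    (hm : 0 < m) (hm1 : m ≡ 1 [MOD M]) : Vp V M (m * a) (m * b) := by
  obtain ⟨h1, h2, h3, h4, h5, h6⟩ := h
  refine ⟨hV.sc a b m h1, ?_, by positivity, by positivity, ?_, ?_⟩
  · intro h
    exact h2 (Nat.eq_of_mul_eq_mul_left hm h)
  · simpa using hm1.mul h5
  · simpa using hm1.mul h6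

end N3

open N3 in
theorem n3 (h1 : T_N1) : T_N3 := by
  intro ℓ _ V hV q hq hql M hM hMq a b hab c E
  obtain ⟨_, f2, f3, f4, f5, f6, _⟩ := h1 q hq
  have hinj : ∀ x y, th q x = th q y → x = y := by
    intro x y h
    rcases Nat.lt_trichotomy x y with h' | h' | h'
    · have := f6 x y h'; omega
    · exact h'
    · have := f6 y x h'; omega
  constructor
  · obtain ⟨m, hm0, hm1, hm2⟩ := crt (hMq.symm.pow_left E) (pow_pos hq.pos E) hM c 1
    exact ⟨m * a, m * b, scale hV hab hm0 hm2, hm1.mul_right a, hm1.mul_right b⟩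
  · obtain ⟨m, hm0, hm1, hm2⟩ := crt (hMq.symm.pow_left (E + 1)) (pow_pos hq.pos (E + 1)) hM c 1
    obtain ⟨g1, g2, g3, g4, g5, g6⟩ := scale hV hab hm0 hm2
    -- an inverse of `q` modulo `M`
    obtain ⟨r, hr⟩ : ∃ r, r * q ≡ 1 [MOD M] := by
      refine ⟨q ^ (Nat.totient M - 1), ?_⟩
      rw [← pow_succ, Nat.sub_add_cancel (Nat.totient_pos.mpr hM)]
      exact Nat.ModEq.pow_totient hMq.symm
    obtain ⟨m', hp0, hp1, hp2⟩ := crt (hMq.symm.pow_left E) (pow_pos hq.pos E) hM 1 r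
    have hres : ∀ x, m * x ≡ 1 [MOD M] → m' * th q (m * x) ≡ 1 [MOD M] := by
      intro x hx
      have e1 : th q (m * x) ≡ q [MOD M] := by
        have := f3 M (m * x) 1 hMq hx
        rwa [f4] at this
      exact (hp2.mul e1).trans hr
    have hres2 : ∀ x, m' * th q (m * x) ≡ th q (c * x) [MOD q ^ E] := by
      intro x
      have e1 : th q (m * x) ≡ th q (c * x) [MOD q ^ E] := by
        apply f2
        rw [← pow_succ']
        exact hm1.mul_right x
      simpa using hp1.mul e1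
    have hpos : ∀ x, 0 < m * x → 0 < th q (m * x) := by
      intro x hx
      have := f6 0 _ hx
      omega
    refine ⟨m' * th q (m * a), m' * th q (m * b), ⟨hV.sc _ _ _ (hV.th q hq hql _ _ g1), ?_,
      Nat.mul_pos hp0 (hpos a g3), Nat.mul_pos hp0 (hpos b g4), hres a g5, hres b g6⟩,
      hres2 a, hres2 b⟩
    intro h
    exact g2 (hinj _ _ (Nat.eq_of_mul_eq_mul_left hp0 h))

end AMq
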