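import Pool.Agent.H87.AQ.Targets

/-!
# N4: pairs `≡ (1, 1)` modulo any `M` (MP_657073_al, residue dichotomy)
-/

namespace AMq

namespace N4

/-- `v_r` only depends on the residue modulo a high power of `r` -/
lemma val_eq {r : ℕ} (hr : r.Prime) {x y E : ℕ} (h : x ≡ y [MOD r ^ E]) (hx : 0 < x) (hy : 0 < y)
    (hE : padicValNat r y < E) : padicValNat r x = padicValNat r y := by
  have := Fact.mk hr
  have key : ∀ k, k ≤ E → (r ^ k ∣ x ↔ r ^ k ∣ y) := by
    intro k hk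
    have h1 : x ≡ y [MOD r ^ k] := h.of_dvd (pow_dvd_pow r hk)
    exact h1.dvd_iff dvd_rfl
  apply le_antisymm
  · by_contra hlt
    push Not at hlt
    have h2 : r ^ (padicValNat r y + 1) ∣ x :=
      (padicValNat_dvd_iff_le hx.ne').mpr hlt
    have h3 := (key _ hE).mp h2
    have h4 := (padicValNat_dvd_iff_le hy.ne').mp h3
    omega
  · have h2 : r ^ (padicValNat r y) ∣ y := pow_padicValNat_dvd
    have h3 := (key _ hE.le).mpr h2
    exact (padicValNat_dvd_iff_le hx.ne').mp h3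

lemma vc_swap {ℓ : ℕ} {V : ℕ → ℕ → Prop} (hV : VC ℓ V) : VC ℓ (fun a b => V b a) :=
  ⟨fun a b c d h1 h2 => hV.mul b a d c h1 h2, fun a b c h => hV.sc b a c h,
    fun q hq hl a b h => hV.th q hq hl b a h⟩

lemma vp_swap {V : ℕ → ℕ → Prop} {M a b : ℕ} (h : Vp V M a b) : Vp (fun a b => V b a) M b a := by
  obtain ⟨h1, h2, h3, h4, h5, h6⟩ := h
  exact ⟨h1, h2.symm, h4, h3, h6, h5⟩

/-- one step when exactly `a` is divisible by `r` -/
lemma step_one (h1 : T_N1) (h3 : T_N3) {ℓ : ℕ} (hl : ℓ.Prime) {V : ℕ → ℕ → Prop} (hV : VC ℓ V)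
    {r : ℕ} (hr : r.Prime) (hrl : r ≠ ℓ) {M : ℕ} (hM : 0 < M) (hMr : M.Coprime r) {a b : ℕ}
    (hab : Vp V M a b) (ha : r ∣ a) (hb : ¬ r ∣ b) :
    ∃ a' b', Vp V M a' b' ∧
      padicValNat r a' + padicValNat r b' < padicValNat r a + padicValNat r b := by
  have := Fact.mk hr
  obtain ⟨f1, f2, _, _, f5, f6, f7, _⟩ := h1 r hr
  obtain ⟨g1, g2, g3, g4, g5, g6⟩ := id hab
  -- `c b ≡ 1 + r` modulo `r ^ 2`
  have hcop : Nat.Coprime b (r ^ 2) := by
    apply Nat.Coprime.pow_right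
    exact ((Nat.Prime.coprime_iff_not_dvd hr).mpr hb).symm
  obtain ⟨c, hc⟩ : ∃ c, c * b ≡ 1 + r [MOD r ^ 2] := by
    refine ⟨(1 + r) * b ^ (Nat.totient (r ^ 2) - 1), ?_⟩
    rw [mul_assoc, ← pow_succ, Nat.sub_add_cancel (Nat.totient_pos.mpr (pow_pos hr.pos 2))]
    have := (Nat.ModEq.pow_totient hcop).mul_left (1 + r)
    simpa using this
  have hcr : ¬ r ∣ c := by
    intro h
    have h2 : c * b ≡ 1 + r [MOD r] := hc.of_dvd (dvd_pow_self r two_ne_zero)
    have h4 : r ∣ 1 + r := (h2.dvd_iff dvd_rfl).mp (h.mul_right b)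
    have h5 : r ∣ 1 := (Nat.dvd_add_left dvd_rfl).mp h4
    exact hr.one_lt.ne' (Nat.dvd_one.mp h5)
  have hc0 : 0 < c := by
    rcases Nat.eq_zero_or_pos c with h | h
    · exact absurd (h ▸ dvd_zero r) hcr
    · exact h
  set E := padicValNat r a + 1 with hE
  obtain ⟨a', b', hab', ha', hb'⟩ := (h3 ℓ hl V hV r hr hrl M hM hMr a b hab c E).2
  obtain ⟨_, _, p3, p4, _, _⟩ := id hab'
  have hva : padicValNat r (th r (c * a)) + 1 = padicValNat r a := by
    rw [f7 (c * a) (Nat.mul_pos hc0 g3) (ha.mul_left c), padicValNat.mul hc0.ne' g3.ne',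
      padicValNat.eq_zero_of_not_dvd hcr, zero_add]
  have hpos : 0 < th r (c * a) := by
    have := f6 0 (c * a) (Nat.mul_pos hc0 g3)
    omega
  have hva' : padicValNat r a' = padicValNat r (th r (c * a)) :=
    val_eq hr ha' p3 hpos (by omega)
  -- `b'` is prime to `r`
  have hbr : ¬ r ∣ b' := by
    intro hd
    have hbb : b' ≡ th r (c * b) [MOD r] := by
      apply hb'.of_dvd
      exact dvd_pow_self r (by omega)
    have hd2 : r ∣ th r (c * b) := (hbb.dvd_iff dvd_rfl).mp hd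
    have hd3 : r ^ 2 ∣ r * th r (c * b) := by
      rw [pow_two]
      exact mul_dvd_mul_left r hd2
    rw [f1] at hd3
    -- in the integers
    have hd4 : ((r : ℤ) ^ 2) ∣ ((c * b : ℕ) : ℤ) ^ r + ((r : ℤ) ^ 2 - 1) * ((c * b : ℕ) : ℤ) := by
      have h1' : 1 ≤ r ^ 2 := Nat.one_le_pow _ _ hr.pos
      have := Int.natCast_dvd_natCast.mpr hd3
      push_cast [Nat.cast_sub h1'] at this ⊢
      exact this
    have hw : (r : ℤ) ^ 2 ∣ ((c * b : ℕ) : ℤ) - (1 + r) := by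
      have := (Nat.modEq_iff_dvd.mp hc.symm)
      push_cast at this ⊢
      exact this
    have hw1 : (r : ℤ) ∣ ((c * b : ℕ) : ℤ) - 1 := by
      have h5 : (r : ℤ) ∣ ((c * b : ℕ) : ℤ) - (1 + r) := (dvd_pow_self (r : ℤ) two_ne_zero).trans hw
      have h6 := dvd_add h5 (dvd_refl (r : ℤ))
      have e6 : ((c * b : ℕ) : ℤ) - (1 + r) + r = ((c * b : ℕ) : ℤ) - 1 := by ring
      rw [e6] at h6
      exact h6
    have hw2 : (r : ℤ) ^ 2 ∣ ((c * b : ℕ) : ℤ) ^ r - 1 := by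
      have h6 : ((c * b : ℕ) : ℤ) ^ r - 1 = ((c * b : ℕ) : ℤ) ^ r - 1 ^ r := by rw [one_pow]
      rw [h6, ← geom_sum₂_mul, pow_two]
      exact mul_dvd_mul (dvd_geom_sum₂_self hw1) hw1
    have hfin : (r : ℤ) ^ 2 ∣ (r : ℤ) := by
      obtain ⟨u1, e1⟩ := hd4
      obtain ⟨u2, e2⟩ := hw
      obtain ⟨u3, e3⟩ := hw2
      refine ⟨u3 + ((c * b : ℕ) : ℤ) - u2 - u1, ?_⟩
      linear_combination e3 - e1 - e2
    have h7 := Int.le_of_dvd (by exact_mod_cast hr.pos) hfin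
    have h8 : (r : ℤ) * 1 < r * r := by
      have : (1 : ℤ) < r := by exact_mod_cast hr.one_lt
      exact mul_lt_mul_of_pos_left this (by linarith)
    nlinarith
  refine ⟨a', b', hab', ?_⟩
  rw [padicValNat.eq_zero_of_not_dvd hbr, hva']
  omega

/-- one step when both are divisible by `r` -/
lemma step_two (h1 : T_N1) (h3 : T_N3) {ℓ : ℕ} (hl : ℓ.Prime) {V : ℕ → ℕ → Prop} (hV : VC ℓ V)
    {r : ℕ} (hr : r.Prime) (hrl : r ≠ ℓ) {M : ℕ} (hM : 0 < M) (hMr : M.Coprime r) {a b : ℕ}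
    (hab : Vp V M a b) (ha : r ∣ a) (hb : r ∣ b) :
    ∃ a' b', Vp V M a' b' ∧
      padicValNat r a' + padicValNat r b' < padicValNat r a + padicValNat r b := by
  have := Fact.mk hr
  obtain ⟨f1, f2, _, _, f5, f6, f7, _⟩ := h1 r hr
  obtain ⟨g1, g2, g3, g4, g5, g6⟩ := id hab
  set E := padicValNat r a + padicValNat r b + 1 with hE
  obtain ⟨a', b', hab', ha', hb'⟩ := (h3 ℓ hl V hV r hr hrl M hM hMr a b hab 1 E).2
  obtain ⟨_, _, p3, p4, _, _⟩ := id hab'
  rw [one_mul] at ha' hb'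
  have hva := f7 a g3 ha
  have hvb := f7 b g4 hb
  have hpa : 0 < th r a := by
    have := f6 0 a g3
    omega
  have hpb : 0 < th r b := by
    have := f6 0 b g4
    omega
  have hva' : padicValNat r a' = padicValNat r (th r a) := val_eq hr ha' p3 hpa (by omega)
  have hvb' : padicValNat r b' = padicValNat r (th r b) := val_eq hr hb' p4 hpb (by omega)
  exact ⟨a', b', hab', by omega⟩

/-- both entries can be made prime to `r` -/
lemma reach (h1 : T_N1) (h3 : T_N3) {ℓ : ℕ} (hl : ℓ.Prime) {V : ℕ → ℕ → Prop} (hV : VC ℓ V)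
    {r : ℕ} (hr : r.Prime) (hrl : r ≠ ℓ) {M : ℕ} (hM : 0 < M) (hMr : M.Coprime r) :
    ∀ (N a b : ℕ), padicValNat r a + padicValNat r b = N → Vp V M a b →
      ∃ a' b', Vp V M a' b' ∧ ¬ r ∣ a' ∧ ¬ r ∣ b' := by
  intro N
  induction N using Nat.strong_induction_on with
  | _ N ih =>
    intro a b hN hab
    by_cases ha : r ∣ a
    · by_cases hb : r ∣ b
      · obtain ⟨a', b', h, hlt⟩ := step_two h1 h3 hl hV hr hrl hM hMr hab ha hb
        exact ih _ (hN ▸ hlt) a' b' rfl h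
      · obtain ⟨a', b', h, hlt⟩ := step_one h1 h3 hl hV hr hrl hM hMr hab ha hb
        exact ih _ (hN ▸ hlt) a' b' rfl h
    · by_cases hb : r ∣ b
      · obtain ⟨b', a', h, hlt⟩ :=
          step_one h1 h3 hl (vc_swap hV) hr hrl hM hMr (vp_swap hab) hb ha
        have h' : Vp V M a' b' := vp_swap h
        exact ih _ (by omega) a' b' rfl h'
      · exact ⟨a, b, hab, ha, hb⟩

/-- powers of a virtual pair -/
lemma vpow {ℓ : ℕ} {V : ℕ → ℕ → Prop} (hV : VC ℓ V) {a b : ℕ} (h : V a b) :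
    ∀ n : ℕ, V (a ^ (n + 1)) (b ^ (n + 1))
  | 0 => by simpa using h
  | n + 1 => by
    rw [pow_succ a (n + 1), pow_succ b (n + 1)]
    exact hV.mul _ _ _ _ (vpow hV h n) h

/-- adding a prime power to the modulus -/
lemma add_prime (h1 : T_N1) (h3 : T_N3) {ℓ : ℕ} (hl : ℓ.Prime) {V : ℕ → ℕ → Prop} (hV : VC ℓ V)
    {r : ℕ} (hr : r.Prime) (hrl : r ≠ ℓ) {M : ℕ} (hM : 0 < M) (hMr : M.Coprime r)
    (h : ∃ a b, Vp V M a b) (k : ℕ) : ∃ a b, Vp V (r ^ k * M) a b := by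
  obtain ⟨a₀, b₀, h₀⟩ := h
  obtain ⟨a, b, ⟨g1, g2, g3, g4, g5, g6⟩, ha, hb⟩ :=
    reach h1 h3 hl hV hr hrl hM hMr _ a₀ b₀ rfl h₀
  obtain ⟨n, hn⟩ : ∃ n, Nat.totient (r ^ k) = n + 1 :=
    ⟨Nat.totient (r ^ k) - 1, (Nat.sub_add_cancel (Nat.totient_pos.mpr (pow_pos hr.pos k))).symm⟩
  have hres : ∀ x, ¬ r ∣ x → x ≡ 1 [MOD M] → x ^ (n + 1) ≡ 1 [MOD r ^ k * M] := by
    intro x hx hxM
    rw [← Nat.modEq_and_modEq_iff_modEq_mul (hMr.symm.pow_left k)]
    constructor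
    · rw [← hn]
      apply Nat.ModEq.pow_totient
      apply Nat.Coprime.pow_right
      exact ((Nat.Prime.coprime_iff_not_dvd hr).mpr hx).symm
    · simpa using hxM.pow (n + 1)
  refine ⟨a ^ (n + 1), b ^ (n + 1), vpow hV g1 n, ?_, pow_pos g3 _, pow_pos g4 _,
    hres a ha g5, hres b hb g6⟩
  intro h
  exact g2 (Nat.pow_left_injective (Nat.succ_ne_zero n) h)

end N4

open N4 in
theorem n4 (h1 : T_N1) (h3 : T_N3) : T_N4 := by
  intro ℓ hl V hV h M
  induction M using Nat.strong_induction_on with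
  | _ M ih =>
    intro hM
    rcases Nat.lt_or_ge M 2 with hlt | hge
    · have hM0 : M ≠ 0 := by
        rintro rfl
        rw [Nat.coprime_zero_left] at hM
        exact hl.one_lt.ne' hM
      have : M = 1 := by omega
      rw [this]
      exact h
    · have hr : (Nat.minFac M).Prime := Nat.minFac_prime (by omega)
      obtain ⟨k, M₀, hM₀, hMk⟩ := Nat.exists_eq_pow_mul_and_not_dvd (n := M) (by omega)
        (Nat.minFac M) hr.ne_one
      have hM₀pos : 0 < M₀ := by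
        rcases Nat.eq_zero_or_pos M₀ with h0 | h0
        · exact absurd (h0 ▸ dvd_zero _) hM₀
        · exact h0
      have hk : k ≠ 0 := by
        rintro rfl
        rw [pow_zero, one_mul] at hMk
        apply hM₀
        rw [← hMk]
        exact Nat.minFac_dvd M
      have hlt : M₀ < M := by
        have h2 : 1 < Nat.minFac M ^ k := Nat.one_lt_pow hk hr.one_lt
        calc M₀ = 1 * M₀ := (one_mul _).symm
          _ < Nat.minFac M ^ k * M₀ := Nat.mul_lt_mul_of_pos_right h2 hM₀pos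
          _ = M := hMk.symm
      have hcop₀ : M₀.Coprime ℓ := Nat.Coprime.coprime_dvd_left (Dvd.intro_left _ hMk.symm) hM
      have hrl : Nat.minFac M ≠ ℓ := by
        intro he
        have h2 : Nat.minFac M ∣ Nat.gcd M ℓ := Nat.dvd_gcd (Nat.minFac_dvd M) (he ▸ dvd_rfl)
        rw [hM] at h2
        exact hr.one_lt.ne' (Nat.dvd_one.mp h2)
      have hMr : M₀.Coprime (Nat.minFac M) := ((Nat.Prime.coprime_iff_not_dvd hr).mpr hM₀).symm
      have hfin := add_prime h1 h3 hl hV hr hrl hM₀pos hMr (ih M₀ hlt hcop₀) k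
      rw [← hMk] at hfin
      exact hfin

end AMq
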