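import Pool.Agent.H87.AQ.Targets

/-!
# N1: the function `th q` (MP_657073_al, residue dichotomy)
-/

namespace AMq

namespace N1

variable {q : ℕ}

lemma q_th (hq : q.Prime) (x : ℕ) : q * th q x = x ^ q + (q ^ 2 - 1) * x := by
  have := Fact.mk hq
  unfold th
  apply Nat.mul_div_cancel'
  rw [← ZMod.natCast_eq_zero_iff]
  have h1 : 1 ≤ q ^ 2 := Nat.one_le_pow _ _ hq.pos
  push_cast [Nat.cast_sub h1]
  rw [ZMod.pow_card]
  simp

lemma q_thZ (hq : q.Prime) (x : ℕ) :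
    (q : ℤ) * (th q x : ℤ) = (x : ℤ) ^ q + ((q : ℤ) ^ 2 - 1) * x := by
  have h := q_th hq x
  have h1 : 1 ≤ q ^ 2 := Nat.one_le_pow _ _ hq.pos
  have h2 := congrArg (fun n : ℕ => (n : ℤ)) h
  push_cast [Nat.cast_sub h1] at h2
  exact h2

/-- `x ≡ y` modulo `q ^ k`, `k ≥ 1`, implies `x ^ q ≡ y ^ q` modulo `q ^ (k+1)` -/
lemma pow_dvd (x y : ℤ) (k : ℕ) (h : (q : ℤ) ^ (k + 1) ∣ x - y) :
    (q : ℤ) ^ (k + 2) ∣ x ^ q - y ^ q := by
  rw [← geom_sum₂_mul]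
  have h1 : (q : ℤ) ∣ x - y := (dvd_pow_self (q : ℤ) (Nat.succ_ne_zero k)).trans h
  have h2 := dvd_geom_sum₂_self h1
  have : (q : ℤ) ^ (k + 2) = (q : ℤ) * (q : ℤ) ^ (k + 1) := by ring
  rw [this]
  exact mul_dvd_mul h2 h

lemma dvd_iff (n x y : ℕ) : x ≡ y [MOD n] ↔ (n : ℤ) ∣ (y : ℤ) - x := by
  rw [Nat.modEq_iff_dvd]

lemma cop (k : ℕ) : IsCoprime ((q : ℤ) ^ k) ((q : ℤ) ^ 2 - 1) := by
  apply IsCoprime.pow_left
  exact ⟨(q : ℤ), -1, by ring⟩

lemma hensel_inj (hq : q.Prime) : ∀ e x y : ℕ, x ≡ y [MOD q] → th q x ≡ th q y [MOD q ^ e] →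
    x ≡ y [MOD q ^ (e + 1)] := by
  intro e
  induction e with
  | zero =>
    intro x y h _
    simpa using h
  | succ e ih =>
    intro x y h1 h2
    have h3 : x ≡ y [MOD q ^ (e + 1)] :=
      ih x y h1 (h2.of_dvd (pow_dvd_pow q (Nat.le_succ e)))
    rw [dvd_iff] at h2 h3 ⊢
    push_cast at h2 h3 ⊢
    have h4 := pow_dvd (q := q) (y : ℤ) (x : ℤ) e h3
    have h5 : (q : ℤ) ^ (e + 2) ∣ (q : ℤ) * (th q y : ℤ) - (q : ℤ) * (th q x : ℤ) := by
      rw [← mul_sub]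
      have : (q : ℤ) ^ (e + 2) = (q : ℤ) * (q : ℤ) ^ (e + 1) := by ring
      rw [this]
      exact mul_dvd_mul_left _ h2
    rw [q_thZ hq, q_thZ hq] at h5
    have h6 : (q : ℤ) ^ (e + 2) ∣ ((q : ℤ) ^ 2 - 1) * ((y : ℤ) - x) := by
      have h7 := dvd_sub h5 h4
      have e7 : ((y : ℤ) ^ q + ((q : ℤ) ^ 2 - 1) * y - ((x : ℤ) ^ q + ((q : ℤ) ^ 2 - 1) * x))
          - ((y : ℤ) ^ q - (x : ℤ) ^ q) = ((q : ℤ) ^ 2 - 1) * ((y : ℤ) - x) := by ring
      rw [e7] at h7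
      exact h7
    exact (cop (e + 2)).dvd_of_dvd_mul_left h6

lemma hensel_surj (hq : q.Prime) (a i : ℕ) : ∀ e : ℕ, ∃ u, u ≡ a [MOD q] ∧
    th q u ≡ i [MOD q ^ e] := by
  intro e
  induction e with
  | zero => exact ⟨a, rfl, by simpa using Nat.modEq_one⟩
  | succ e ih =>
    obtain ⟨u, hu1, hu2⟩ := ih
    rw [dvd_iff] at hu2
    obtain ⟨s, hs⟩ := hu2
    push_cast at hs
    -- `i - th u = q^e s`; take `t ≡ -s` modulo `q`
    have hq0 : (0 : ℤ) < q := by exact_mod_cast hq.pos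
    obtain ⟨t, ht⟩ : ∃ t : ℕ, (t : ℤ) = (-s) % q :=
      ⟨((-s) % q).toNat, Int.toNat_of_nonneg (Int.emod_nonneg _ hq0.ne')⟩
    have ht2 : (q : ℤ) ∣ -s - t := by
      rw [ht]
      exact Int.dvd_self_sub_emod
    refine ⟨u + q ^ (e + 1) * t, ?_, ?_⟩
    · have : u + q ^ (e + 1) * t ≡ u [MOD q] := by
        rw [Nat.ModEq, pow_succ', mul_assoc, Nat.add_mul_mod_self_left]
      exact this.trans hu1
    · rw [dvd_iff]
      push_cast
      have h1 := q_thZ hq (u + q ^ (e + 1) * t)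
      have h0 := q_thZ hq u
      push_cast at h1
      have h3 : (q : ℤ) ^ (e + 2) ∣ ((u : ℤ) + (q : ℤ) ^ (e + 1) * t) ^ q - (u : ℤ) ^ q := by
        apply pow_dvd
        exact ⟨t, by ring⟩
      have h4 : (q : ℤ) * (q : ℤ) ^ (e + 1) ∣
          (q : ℤ) * ((i : ℤ) - (th q (u + q ^ (e + 1) * t) : ℤ)) := by
        obtain ⟨r, hr⟩ := h3
        obtain ⟨r', hr'⟩ := ht2
        refine ⟨-r - r' - q * t, ?_⟩
        have e1 : (q : ℤ) * ((i : ℤ) - (th q (u + q ^ (e + 1) * t) : ℤ))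
            = (q : ℤ) * ((i : ℤ) - th q u)
              - (((u : ℤ) + (q : ℤ) ^ (e + 1) * t) ^ q - (u : ℤ) ^ q)
              - ((q : ℤ) ^ 2 - 1) * ((q : ℤ) ^ (e + 1) * t) := by
          rw [mul_sub, mul_sub, h1, h0]
          ring
        rw [e1, hr, hs]
        have e2 : s = -t - q * r' := by linarith
        rw [e2]
        ring
      exact (mul_dvd_mul_iff_left hq0.ne').mp h4

lemma th_lt (hq : q.Prime) (x y : ℕ) (h : x < y) : th q x < th q y := by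
  have h1 := q_th hq x
  have h2 := q_th hq y
  have h3 : x ^ q < y ^ q := Nat.pow_lt_pow_left h hq.ne_zero
  have h4 : (q ^ 2 - 1) * x ≤ (q ^ 2 - 1) * y := Nat.mul_le_mul_left _ h.le
  have h5 : q * th q x < q * th q y := by omega
  exact Nat.lt_of_mul_lt_mul_left h5

lemma val (hq : q.Prime) (x : ℕ) (hx : 0 < x) (hd : q ∣ x) :
    padicValNat q (th q x) + 1 = padicValNat q x := by
  have := Fact.mk hq
  have h1 : 1 ≤ q ^ 2 := Nat.one_le_pow _ _ hq.pos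
  have e : q * th q x = x * (x ^ (q - 1) + (q ^ 2 - 1)) := by
    rw [q_th hq, mul_add, mul_comm x (q ^ 2 - 1)]
    congr 1
    rw [← pow_succ', Nat.sub_add_cancel hq.one_le]
  have hB : ¬ q ∣ x ^ (q - 1) + (q ^ 2 - 1) := by
    intro h
    have h2 : q ∣ x ^ (q - 1) := dvd_pow hd (Nat.sub_ne_zero_of_lt hq.one_lt)
    have h3 : q ∣ q ^ 2 - 1 := (Nat.dvd_add_right h2).mp h
    have h4 : q ∣ q ^ 2 := dvd_pow_self q two_ne_zero
    have h5 : q ∣ q ^ 2 - (q ^ 2 - 1) := Nat.dvd_sub h4 h3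
    have h6 : q ^ 2 - (q ^ 2 - 1) = 1 := by omega
    rw [h6] at h5
    exact hq.one_lt.ne' (Nat.dvd_one.mp h5)
  have hth : th q x ≠ 0 := by
    intro h
    have := th_lt hq 0 x hx
    omega
  have hBne : x ^ (q - 1) + (q ^ 2 - 1) ≠ 0 := by
    intro h
    apply hB
    rw [h]
    exact dvd_zero q
  have h7 := congrArg (padicValNat q) e
  rw [padicValNat.mul hq.ne_zero hth, padicValNat.mul hx.ne' hBne, padicValNat_self,
    padicValNat.eq_zero_of_not_dvd hB] at h7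
  omega

end N1

open N1 in
theorem n1 : T_N1 := by
  intro q hq
  refine ⟨q_th hq, ?_, ?_, ?_, ?_, th_lt hq, val hq, hensel_inj hq,
    fun a i e => hensel_surj hq a i e⟩
  · intro n x y h
    apply Nat.ModEq.mul_left_cancel' hq.ne_zero
    rw [q_th hq, q_th hq]
    exact (h.pow q).add (h.mul_left _)
  · intro n x y hn h
    apply Nat.ModEq.cancel_left_of_coprime (c := q) hn
    rw [q_th hq, q_th hq]
    exact (h.pow q).add (h.mul_left _)
  · have h1 : 1 ≤ q ^ 2 := Nat.one_le_pow _ _ hq.pos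
    unfold th
    rw [one_pow, mul_one, Nat.add_sub_cancel' h1, pow_two, Nat.mul_div_cancel _ hq.pos]
  · unfold th
    rw [zero_pow hq.ne_zero, mul_zero, add_zero, Nat.zero_div]

end AMq
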